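import Mathlib

/-!
# Project AN, job REAL1: an inequality between real numbers
-/

set_option autoImplicit false

namespace Pool.Agent.Y572.AN

open Finset

/-- one factor -/
theorem fac_bound (b j : ℕ) (hj : j < 4) :
    ((b + j).factorial : ℝ) / ((b + 1 + j : ℕ) : ℝ) ≤
      25 * ((b + 1).factorial : ℝ) * ((b : ℝ) + 5) ^ j / ((b : ℝ) + 5) ^ 2 := by
  have hb : (0 : ℝ) ≤ b := b.cast_nonneg
  have hf : (0 : ℝ) < b.factorial := by exact_mod_cast b.factorial_pos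
  have h1 : ((b + 1).factorial : ℝ) = (b + 1) * b.factorial := by
    rw [Nat.factorial_succ]; push_cast; ring
  have h2 : ((b + 2).factorial : ℝ) = (b + 2) * ((b + 1) * b.factorial) := by
    rw [Nat.factorial_succ, Nat.factorial_succ]; push_cast; ring
  have h3 : ((b + 3).factorial : ℝ) = (b + 3) * ((b + 2) * ((b + 1) * b.factorial)) := by
    rw [Nat.factorial_succ, Nat.factorial_succ, Nat.factorial_succ]; push_cast; ring
  rw [div_le_div_iff₀ (by positivity) (by positivity)]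
  interval_cases j
  · simp only [add_zero, pow_zero, mul_one]
    rw [h1]
    push_cast
    have : ((b : ℝ) + 5) ^ 2 ≤ 25 * ((b + 1) * (b + 1)) := by nlinarith
    calc (b.factorial : ℝ) * ((b : ℝ) + 5) ^ 2 ≤ b.factorial * (25 * ((b + 1) * (b + 1))) :=
          mul_le_mul_of_nonneg_left this hf.le
      _ = 25 * ((b + 1) * (b.factorial : ℝ)) * (b + 1) := by ring
  · rw [h1]
    push_cast
    have : (b + 1) * ((b : ℝ) + 5) ^ 2 ≤ 25 * ((b + 1) * (b + 5) * (b + 1 + 1)) := by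
      nlinarith [mul_nonneg hb hb, mul_nonneg (mul_nonneg hb hb) hb]
    calc ((b : ℝ) + 1) * (b.factorial : ℝ) * ((b : ℝ) + 5) ^ 2
        = (b.factorial : ℝ) * (((b : ℝ) + 1) * ((b : ℝ) + 5) ^ 2) := by ring
      _ ≤ (b.factorial : ℝ) * (25 * (((b : ℝ) + 1) * (b + 5) * (b + 1 + 1))) :=
          mul_le_mul_of_nonneg_left this hf.le
      _ = 25 * ((b + 1) * (b.factorial : ℝ)) * ((b : ℝ) + 5) ^ 1 * (b + 1 + 1) := by ring
  · rw [h1, h2]
    push_cast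
    have : (b + 2) * ((b : ℝ) + 1) ≤ 25 * ((b + 1) * (b + 1 + 2)) := by
      nlinarith [mul_nonneg hb hb]
    calc ((b : ℝ) + 2) * ((b + 1) * (b.factorial : ℝ)) * ((b : ℝ) + 5) ^ 2
        = (b.factorial * ((b : ℝ) + 5) ^ 2) * ((b + 2) * ((b : ℝ) + 1)) := by ring
      _ ≤ (b.factorial * ((b : ℝ) + 5) ^ 2) * (25 * ((b + 1) * (b + 1 + 2))) :=
          mul_le_mul_of_nonneg_left this (by positivity)
      _ = 25 * ((b + 1) * (b.factorial : ℝ)) * ((b : ℝ) + 5) ^ 2 * (b + 1 + 2) := by ring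
  · rw [h1, h3]
    push_cast
    have : (b + 3) * ((b : ℝ) + 2) ≤ 25 * ((b + 5) * (b + 1 + 3)) := by
      nlinarith [mul_nonneg hb hb]
    calc ((b : ℝ) + 3) * ((b + 2) * ((b + 1) * (b.factorial : ℝ))) * ((b : ℝ) + 5) ^ 2
        = ((b + 1) * b.factorial * ((b : ℝ) + 5) ^ 2) * ((b + 3) * ((b : ℝ) + 2)) := by ring
      _ ≤ ((b + 1) * b.factorial * ((b : ℝ) + 5) ^ 2) * (25 * ((b + 5) * (b + 1 + 3))) :=
          mul_le_mul_of_nonneg_left this (by positivity)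
      _ = 25 * ((b + 1) * (b.factorial : ℝ)) * ((b : ℝ) + 5) ^ 3 * (b + 1 + 3) := by ring

theorem term_bound (B d γ : ℝ) (b j : ℕ) (hj : j < 4) (hB : 1 ≤ B) (hd : 0 < d)
    (hγ : γ = d / (2 * B * ((b : ℝ) + 5))) :
    γ ^ j * ((B / (d - γ)) ^ (b + j) * (b + j).factorial / (b + 1 + j : ℕ)) ≤
      50 * (B / d) ^ b * (b + 1).factorial / ((b : ℝ) + 5) ^ 2 := by
  have hb : (0 : ℝ) ≤ b := b.cast_nonneg
  have hm : (0 : ℝ) < (b : ℝ) + 5 := by linarith
  have hBm : (0 : ℝ) < 2 * B * ((b : ℝ) + 5) := by positivity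
  have hγ0 : 0 < γ := by rw [hγ]; positivity
  set s : ℝ := 1 - 1 / (2 * B * ((b : ℝ) + 5)) with hs
  have hds : d - γ = d * s := by rw [hs, hγ]; ring
  have hs1 : 1 / (2 * B * ((b : ℝ) + 5)) ≤ 1 / 2 := by
    rw [div_le_div_iff₀ hBm (by norm_num)]
    nlinarith
  have hs0 : 0 < s := by rw [hs]; linarith
  have hpow : 1 / 2 ≤ s ^ (b + j) := by
    have h := one_add_mul_le_pow (a := -(1 / (2 * B * ((b : ℝ) + 5)))) (by linarith) (b + j)
    have e : (1 : ℝ) + -(1 / (2 * B * ((b : ℝ) + 5))) = s := by rw [hs]; ring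
    rw [e] at h
    refine le_trans ?_ h
    have hjr : (j : ℝ) ≤ 3 := by exact_mod_cast (by omega : j ≤ 3)
    have h3 : ((b + j : ℕ) : ℝ) * (1 / (2 * B * ((b : ℝ) + 5))) ≤ 1 / 2 := by
      rw [mul_one_div, div_le_div_iff₀ hBm (by norm_num)]
      push_cast
      nlinarith
    linarith
  have hPeq : B / (d - γ) = B / d / s := by rw [hds, div_div]
  have hP0 : 0 < B / d := by positivity
  have hP' : (B / (d - γ)) ^ (b + j) ≤ 2 * (B / d) ^ (b + j) := by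
    rw [hPeq, div_pow, div_le_iff₀ (by positivity)]
    have h5 : 0 < (B / d) ^ (b + j) := by positivity
    nlinarith
  have hγP : γ * (B / d) = 1 / (2 * ((b : ℝ) + 5)) := by
    rw [hγ]
    field_simp
  have h6 : γ ^ j * (B / (d - γ)) ^ (b + j) ≤ 2 * (B / d) ^ b * (1 / (2 * ((b : ℝ) + 5))) ^ j := by
    calc γ ^ j * (B / (d - γ)) ^ (b + j) ≤ γ ^ j * (2 * (B / d) ^ (b + j)) :=
          mul_le_mul_of_nonneg_left hP' (by positivity)
      _ = 2 * (B / d) ^ b * (γ * (B / d)) ^ j := by rw [pow_add, mul_pow]; ring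
      _ = _ := by rw [hγP]
  have h7 := fac_bound b j hj
  have h8 : (0 : ℝ) ≤ ((b + j).factorial : ℝ) / ((b + 1 + j : ℕ) : ℝ) := by positivity
  have h9 : ((1 : ℝ) / (2 * ((b : ℝ) + 5))) ^ j * ((b : ℝ) + 5) ^ j ≤ 1 := by
    rw [← mul_pow]
    apply pow_le_one₀ (by positivity)
    rw [one_div, mul_inv, mul_assoc, inv_mul_cancel₀ hm.ne']
    norm_num
  calc γ ^ j * ((B / (d - γ)) ^ (b + j) * (b + j).factorial / (b + 1 + j : ℕ))
      = (γ ^ j * (B / (d - γ)) ^ (b + j)) * (((b + j).factorial : ℝ) / ((b + 1 + j : ℕ) : ℝ)) := by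
        ring
    _ ≤ (2 * (B / d) ^ b * (1 / (2 * ((b : ℝ) + 5))) ^ j) *
        (25 * ((b + 1).factorial : ℝ) * ((b : ℝ) + 5) ^ j / ((b : ℝ) + 5) ^ 2) :=
        mul_le_mul h6 h7 h8 (by positivity)
    _ = (50 * (B / d) ^ b * (b + 1).factorial / ((b : ℝ) + 5) ^ 2) *
        (((1 : ℝ) / (2 * ((b : ℝ) + 5))) ^ j * ((b : ℝ) + 5) ^ j) := by ring
    _ ≤ (50 * (B / d) ^ b * (b + 1).factorial / ((b : ℝ) + 5) ^ 2) * 1 :=
        mul_le_mul_of_nonneg_left h9 (by positivity)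
    _ = _ := mul_one _

theorem real1 : ∃ C₂ : ℝ, 0 < C₂ ∧ ∀ (C A B d γ Q : ℝ) (a : ℕ) (X : ℕ → ℝ), 0 ≤ C → 0 ≤ A →
    1 ≤ B → 0 < d → d ≤ 1 → 1 ≤ a → γ = d / (2 * B * (a + 4)) →
    (∀ j < 4, X j ≤ (A * ((B / (d - γ)) ^ (a + j - 1) * (a + j - 1).factorial / (a + j : ℕ))) ^ 2) →
    γ ^ 3 * Q ≤ C * ∑ j ∈ Finset.range 4, γ ^ (2 * j) * X j →
      Q ≤ C₂ * C * A ^ 2 * ((B / d) ^ (2 * a + 1) * (a.factorial : ℝ) ^ 2 / (a + 1)) := by
  refine ⟨80000, by norm_num, fun C A B d γ Q a X hC hA hB hd hd1 ha hγ hX hQ => ?_⟩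
  obtain ⟨b, rfl⟩ : ∃ b, a = b + 1 := ⟨a - 1, by omega⟩
  have hγ' : γ = d / (2 * B * ((b : ℝ) + 5)) := by
    rw [hγ]; push_cast; ring_nf
  have hb : (0 : ℝ) ≤ b := b.cast_nonneg
  have hm : (0 : ℝ) < (b : ℝ) + 5 := by linarith
  have hγ0 : 0 < γ := by rw [hγ']; positivity
  have hP0 : 0 < B / d := by positivity
  have hγd : γ < d := by
    rw [hγ', div_lt_iff₀ (by positivity)]
    have : 1 < 2 * B * ((b : ℝ) + 5) := by nlinarith
    nlinarith
  have hterm : ∀ j ∈ Finset.range 4, γ ^ (2 * j) * X j ≤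
      2500 * A ^ 2 * ((B / d) ^ (2 * b) * ((b + 1).factorial : ℝ) ^ 2 / ((b : ℝ) + 5) ^ 4) := by
    intro j hj
    have hj4 : j < 4 := Finset.mem_range.1 hj
    have h1 := hX j hj4
    have e1 : b + 1 + j - 1 = b + j := by omega
    rw [e1] at h1
    have h2 := term_bound B d γ b j hj4 hB hd hγ'
    have h0 : 0 ≤ γ ^ j * ((B / (d - γ)) ^ (b + j) * (b + j).factorial / (b + 1 + j : ℕ)) := by
      have : 0 < B / (d - γ) := div_pos (by linarith) (by linarith)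
      positivity
    calc γ ^ (2 * j) * X j ≤ γ ^ (2 * j) *
          (A * ((B / (d - γ)) ^ (b + j) * (b + j).factorial / (b + 1 + j : ℕ))) ^ 2 :=
          mul_le_mul_of_nonneg_left h1 (by positivity)
      _ = A ^ 2 * (γ ^ j * ((B / (d - γ)) ^ (b + j) * (b + j).factorial / (b + 1 + j : ℕ))) ^ 2 := by
          rw [mul_comm 2 j, pow_mul]; ring
      _ ≤ A ^ 2 * (50 * (B / d) ^ b * (b + 1).factorial / ((b : ℝ) + 5) ^ 2) ^ 2 :=
          mul_le_mul_of_nonneg_left (pow_le_pow_left₀ h0 h2 2) (by positivity)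
      _ = _ := by
          rw [mul_comm 2 b, pow_mul]
          generalize (b : ℝ) + 5 = m
          ring
  have hsum := Finset.sum_le_card_nsmul _ _ _ hterm
  rw [Finset.card_range, nsmul_eq_mul] at hsum
  have hQ2 : γ ^ 3 * Q ≤ C * ((4 : ℕ) * (2500 * A ^ 2 *
      ((B / d) ^ (2 * b) * ((b + 1).factorial : ℝ) ^ 2 / ((b : ℝ) + 5) ^ 4))) :=
    hQ.trans (mul_le_mul_of_nonneg_left hsum hC)
  have hγP : γ * (B / d) = 1 / (2 * ((b : ℝ) + 5)) := by
    rw [hγ']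
    field_simp
  have hcube : γ ^ 3 * ((B / d) ^ 3 * (8 * ((b : ℝ) + 5) ^ 3)) = 1 := by
    have : γ ^ 3 * ((B / d) ^ 3 * (8 * ((b : ℝ) + 5) ^ 3)) =
      (γ * (B / d) * (2 * ((b : ℝ) + 5))) ^ 3 := by ring
    rw [this, hγP, one_div, inv_mul_cancel₀ (by positivity), one_pow]
  have hQ3 : Q ≤ 80000 * C * A ^ 2 *
      ((B / d) ^ (2 * b + 3) * ((b + 1).factorial : ℝ) ^ 2 / ((b : ℝ) + 5)) := by
    calc Q = (γ ^ 3 * Q) * ((B / d) ^ 3 * (8 * ((b : ℝ) + 5) ^ 3)) := by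
          rw [mul_comm (γ ^ 3) Q, mul_assoc, hcube, mul_one]
      _ ≤ (C * ((4 : ℕ) * (2500 * A ^ 2 *
          ((B / d) ^ (2 * b) * ((b + 1).factorial : ℝ) ^ 2 / ((b : ℝ) + 5) ^ 4)))) *
          ((B / d) ^ 3 * (8 * ((b : ℝ) + 5) ^ 3)) :=
          mul_le_mul_of_nonneg_right hQ2 (by positivity)
      _ = _ := by
          rw [pow_add]
          push_cast
          field_simp
          ring
  refine hQ3.trans ?_
  have e2 : 2 * (b + 1) + 1 = 2 * b + 3 := by ring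
  rw [e2]
  refine mul_le_mul_of_nonneg_left ?_ (by positivity)
  apply div_le_div_of_nonneg_left (by positivity) (by positivity)
  push_cast
  linarith

end Pool.Agent.Y572.AN
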