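import Pool.Agent.TH305.DR.Cut

/-!
# Project AN, job SOBG: the pointwise bound with the gap
-/

set_option autoImplicit false

open MeasureTheory Set Metric Filter Topology
open scoped ContDiff

namespace Pool.Agent.Y572.AN

open H459R3.NS W221.NS Pool.Agent.TH305.DR
open Pool.Agent.W583.MD (sm_pd)

theorem pd_aff {f : V → ℝ} (hf : ContDiff ℝ ∞ f) (c r : ℝ) (a : V) (j : Fin 3) :
    pd j (fun y => c * f (a + r • y)) = fun y => (c * r) * pd j f (a + r • y) := by
  funext w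
  have h1 : HasFDerivAt f (fderiv ℝ f (a + r • w)) (a + r • w) :=
    (hf.differentiable (by simp) _).hasFDerivAt
  have h2 : HasFDerivAt (fun y : V => a + r • y) (r • ContinuousLinearMap.id ℝ V) w :=
    ((hasFDerivAt_id w).const_smul r).const_add a
  have h3 := (h1.comp w h2).const_mul c
  unfold pd
  have h4 : fderiv ℝ (fun y => c * f (a + r • y)) w = _ := h3.fderiv
  rw [h4]
  simp
  ring

theorem SS_aff (n : ℕ) : ∀ {f : V → ℝ}, ContDiff ℝ ∞ f → ∀ (c r : ℝ) (a x : V),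
    SS n (fun y => c * f (a + r • y)) x = c ^ 2 * (r ^ 2) ^ n * SS n f (a + r • x) := by
  induction n with
  | zero =>
    intro f _ c r a x
    simp only [SS_zero, pow_zero, mul_one]
    ring
  | succ n ih =>
    intro f hf c r a x
    rw [SS_succ, SS_succ, Finset.mul_sum]
    refine Finset.sum_congr rfl fun i _ => ?_
    rw [pd_aff hf, ih (sm_pd hf i)]
    ring

theorem chg {F : V → ℝ} {b : ℝ} (hb0 : 0 < b) (a : V) :
    ∫ z in ball (0 : V) 1, F (a + b • z) = (b ^ 3)⁻¹ * ∫ z in ball a (b * 1), F z := by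
  have e1 : ∫ z in ball (0 : V) 1, F (a + b • z)
      = ∫ z, (ball a (b * 1)).indicator F (a + b • z) := by
    rw [← integral_indicator measurableSet_ball]
    congr 1
    funext z
    have hiff : z ∈ ball (0 : V) 1 ↔ a + b • z ∈ ball a (b * 1) := by
      rw [mem_ball_zero_iff, mem_ball, dist_eq_norm, add_sub_cancel_left, norm_smul,
        Real.norm_eq_abs, abs_of_pos hb0]
      exact (mul_lt_mul_iff_right₀ hb0).symm
    by_cases hz : z ∈ ball (0 : V) 1
    · rw [indicator_of_mem hz, indicator_of_mem (hiff.1 hz)]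
    · rw [indicator_of_notMem hz, indicator_of_notMem (fun h => hz (hiff.2 h))]
  have e2 := Measure.integral_comp_smul (μ := (volume : Measure V))
    (fun z => (ball a (b * 1)).indicator F (a + z)) b
  rw [e1, e2, integral_add_left_eq_self _ a, integral_indicator measurableSet_ball]
  simp only [Module.finrank_fintype_fun_eq_card, Fintype.card_fin, smul_eq_mul]
  rw [abs_of_pos (by positivity)]

theorem N_aff (m : ℕ) {f : V → ℝ} (hf : ContDiff ℝ ∞ f) {γ ρ : ℝ} (hγ : 0 < γ) {x : V}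
    (hx : x ∈ ball (0 : V) ρ) :
    N m 1 (fun y => 1 * f (x + γ • y)) ≤ (γ ^ 2) ^ m * (γ ^ 3)⁻¹ * N m (ρ + γ) f := by
  have e1 : N m 1 (fun y => 1 * f (x + γ • y)) =
      (γ ^ 2) ^ m * ∫ z in ball (0 : V) 1, SS m f (x + γ • z) := by
    unfold Pool.Agent.TH305.DR.N
    rw [← integral_const_mul]
    refine integral_congr_ae (Eventually.of_forall fun z => ?_)
    show SS m (fun y => 1 * f (x + γ • y)) z = (γ ^ 2) ^ m * SS m f (x + γ • z)
    rw [SS_aff m hf]
    ring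
  rw [e1, chg hγ x, mul_assoc]
  refine mul_le_mul_of_nonneg_left ?_ (by positivity)
  refine mul_le_mul_of_nonneg_left ?_ (by positivity)
  unfold Pool.Agent.TH305.DR.N
  refine setIntegral_mono_set (N_int m (ρ + γ) hf) (Eventually.of_forall fun x => SS_nonneg m f x)
    (HasSubset.Subset.eventuallyLE ?_)
  intro z hz
  rw [mem_ball, mul_one] at hz
  rw [mem_ball_zero_iff] at hx ⊢
  calc ‖z‖ = ‖(z - x) + x‖ := by rw [sub_add_cancel]
    _ ≤ ‖z - x‖ + ‖x‖ := norm_add_le _ _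
    _ < ρ + γ := by rw [dist_eq_norm] at hz; linarith

theorem sobg : ∃ C : ℝ, 0 < C ∧ ∀ (n : ℕ) (f : V → ℝ), ContDiff ℝ ∞ f →
    ∀ γ ρ : ℝ, 0 < γ → γ ≤ 1 → 0 < ρ → ∀ x ∈ ball (0 : V) ρ,
      γ ^ 3 * SS n f x ≤ C * ∑ j ∈ Finset.range 4, γ ^ (2 * j) * N (n + j) (ρ + γ) f := by
  obtain ⟨C, hC, H⟩ := pointN (ρ' := 1 / 2) (ρ := 1) (by norm_num) (by norm_num) le_rfl
  refine ⟨C, hC, fun n f hf γ ρ hγ _ _ x hx => ?_⟩
  have hg : ContDiff ℝ ∞ (fun y : V => 1 * f (x + γ • y)) :=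
    contDiff_const.mul (hf.comp (contDiff_const.add (contDiff_id.const_smul γ)))
  have h1 := H n _ hg 0 (mem_ball_self (by norm_num))
  rw [SS_aff n hf, smul_zero, add_zero] at h1
  have k0 := N_aff n hf hγ hx
  have k1 := N_aff (n + 1) hf hγ hx
  have k2 := N_aff (n + 2) hf hγ hx
  have k3 := N_aff (n + 3) hf hγ hx
  have h2 : 1 ^ 2 * (γ ^ 2) ^ n * SS n f x ≤ C * ((γ ^ 2) ^ n * (γ ^ 3)⁻¹ * N n (ρ + γ) f +
      (γ ^ 2) ^ (n + 1) * (γ ^ 3)⁻¹ * N (n + 1) (ρ + γ) f +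
      (γ ^ 2) ^ (n + 2) * (γ ^ 3)⁻¹ * N (n + 2) (ρ + γ) f +
      (γ ^ 2) ^ (n + 3) * (γ ^ 3)⁻¹ * N (n + 3) (ρ + γ) f) :=
    h1.trans (mul_le_mul_of_nonneg_left (by linarith) hC.le)
  have hp : 0 < (γ ^ 2) ^ n := by positivity
  have hq : 0 < γ ^ 3 := by positivity
  rw [← mul_le_mul_iff_right₀ hp]
  have h3 := mul_le_mul_of_nonneg_left h2 hq.le
  refine le_trans (le_of_eq ?_) (h3.trans (le_of_eq ?_))
  · ring
  · simp only [Finset.sum_range_succ, Finset.sum_range_zero, zero_add, mul_zero, pow_zero, one_mul,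
      add_zero]
    rw [pow_succ (γ ^ 2) n, pow_succ (γ ^ 2) (n + 1), pow_succ (γ ^ 2) (n + 2), pow_succ (γ ^ 2) n,
      pow_succ (γ ^ 2) (n + 1), pow_succ (γ ^ 2) n]
    field_simp
    try ring

end Pool.Agent.Y572.AN
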