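import Pool.Agent.Y7.AN.Stm
import Pool.Agent.Y572.AN.Sobg0

/-!
# Project AN, job SOBG
-/

set_option autoImplicit false

namespace Pool.Agent.Y572.AN

theorem t_sobg : Pool.Agent.Y7.AN.S_SOBG := sobg

end Pool.Agent.Y572.AN
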